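import Mathlib

namespace Pool.Agent.Results.MP_acd7ab_co.Q1

open Equiv Equiv.Perm

/-- even-cycle-intersecting: for distinct members, `σ π⁻¹` has a cycle of even length -/
def ECI {n : ℕ} (F : Finset (Perm (Fin n))) : Prop :=
  ∀ σ ∈ F, ∀ π ∈ F, σ ≠ π → ∃ k ∈ (σ * π⁻¹).cycleType, Even k

/-- extremal: even-cycle-intersecting of the largest possible size -/
def Extremal {n : ℕ} (F : Finset (Perm (Fin n))) : Prop :=
  ECI F ∧ ∀ G : Finset (Perm (Fin n)), ECI G → G.card ≤ F.card

/-- `F = σ P π` for a Sylow 2-subgroup `P` -/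
def IsSylowTranslate {n : ℕ} (F : Finset (Perm (Fin n))) : Prop :=
  ∃ (P : Sylow 2 (Perm (Fin n))) (σ π : Perm (Fin n)),
    (F : Set (Perm (Fin n))) = (fun g => σ * g * π) '' ((P : Subgroup (Perm (Fin n))) : Set _)

lemma odd_has_even {n : ℕ} (g : Perm (Fin n)) (h : sign g = -1) :
    ∃ k ∈ g.cycleType, Even k := by
  by_contra hc
  push Not at hc
  rw [sign_of_cycleType'] at h
  have : (g.cycleType.map fun n => -(-1 : ℤˣ) ^ n).prod = 1 := by
    apply Multiset.prod_eq_one
    intro x hx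
    obtain ⟨k, hk, rfl⟩ := Multiset.mem_map.1 hx
    have := (Nat.not_even_iff_odd.1 (hc k hk)).neg_one_pow (α := ℤˣ)
    rw [this]; simp
  rw [this] at h
  exact absurd h (by decide)

lemma sign_diff {n : ℕ} (a b : Perm (Fin n)) (h : sign a ≠ sign b) : sign (a * b⁻¹) = -1 := by
  rw [map_mul, sign_inv]
  rcases Int.units_eq_one_or (sign a) with h1 | h1 <;>
  rcases Int.units_eq_one_or (sign b) with h2 | h2 <;> simp_all

lemma exists_tau (n : ℕ) (hn : 5 ≤ n) :
    ∃ τ : Perm (Fin n), sign τ = -1 ∧ τ ^ 6 = 1 ∧ τ ^ 2 ≠ 1 := by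
  classical
  let f : Fin 5 ≃ Set.range (Fin.castLE hn) := Equiv.ofInjective _ (Fin.castLE_injective hn)
  let t : Perm (Fin 5) := swap 0 1 * (swap 2 3 * swap 3 4)
  refine ⟨extendDomainHom f t, ?_, ?_, ?_⟩
  · have : sign (t.extendDomain f) = sign t := sign_extendDomain t f
    have h2 : sign t = -1 := by decide
    rw [h2] at this
    exact this
  · rw [← map_pow]
    have : t ^ 6 = 1 := by decide
    rw [this, map_one]
  · rw [← map_pow]
    intro h
    have h1 : t ^ 2 = 1 := extendDomainHom_injective f (by rw [h, map_one])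
    exact absurd h1 (by decide)

lemma has_sign {n : ℕ} (F : Finset (Perm (Fin n))) (hF : Extremal F) (g : Perm (Fin n)) :
    ∃ a ∈ F, sign a = sign g := by
  classical
  by_contra hc
  push Not at hc
  have hg : g ∉ F := fun h => hc g h rfl
  have : ECI (insert g F) := by
    intro σ hσ π hπ hne
    rcases Finset.mem_insert.1 hσ with rfl | h1 <;> rcases Finset.mem_insert.1 hπ with h2 | h2
    · exact absurd h2.symm hne
    · exact odd_has_even _ (sign_diff _ _ (fun h => hc π h2 h.symm))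
    · subst h2; exact odd_has_even _ (sign_diff _ _ (hc σ h1))
    · exact hF.1 σ h1 π h2 hne
  have h := hF.2 _ this
  rw [Finset.card_insert_of_notMem hg] at h
  omega

theorem result : ∀ n : ℕ, 5 ≤ n →
    ∃ F : Finset (Perm (Fin n)), Extremal F ∧ ¬ IsSylowTranslate F := by
  classical
  intro n hn
  obtain ⟨τ, hτs, hτ6, hτ2⟩ := exists_tau n hn
  obtain ⟨F, hFm, hFmax⟩ := Finset.exists_max_image
    ((Finset.univ : Finset (Finset (Perm (Fin n)))).filter ECI) Finset.card
    ⟨∅, by simp [ECI]⟩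
  have hF : Extremal F := ⟨(Finset.mem_filter.1 hFm).2,
    fun G hG => hFmax G (Finset.mem_filter.2 ⟨Finset.mem_univ _, hG⟩)⟩
  obtain ⟨a, ha, has⟩ := has_sign F hF 1
  obtain ⟨b, hb, hbs⟩ := has_sign F hF τ
  rw [map_one] at has
  rw [hτs] at hbs
  let φ : Perm (Fin n) → Perm (Fin n) := fun g => if sign g = 1 then g * a⁻¹ else g * (b⁻¹ * τ)
  have hsφ : ∀ g, sign (φ g) = sign g := by
    intro g
    simp only [φ]
    split_ifs with h
    · simp [has]
    · simp [hbs, hτs]
  have hdiff : ∀ g h, sign g = sign h → φ g * (φ h)⁻¹ = g * h⁻¹ := by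
    intro g h hs
    simp only [φ, hs]
    split_ifs <;> group
  have hinj : Function.Injective φ := by
    intro g h e
    have hs : sign g = sign h := by rw [← hsφ g, ← hsφ h, e]
    have := hdiff g h hs
    rw [e, mul_inv_cancel] at this
    exact mul_inv_eq_one.1 this.symm
  refine ⟨F.image φ, ⟨?_, ?_⟩, ?_⟩
  · intro σ hσ π hπ hne
    obtain ⟨g, hg, rfl⟩ := Finset.mem_image.1 hσ
    obtain ⟨h, hh, rfl⟩ := Finset.mem_image.1 hπ
    by_cases hs : sign g = sign h
    · rw [hdiff g h hs]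
      exact hF.1 g hg h hh (fun e => hne (by rw [e]))
    · exact odd_has_even _ (sign_diff _ _ (by rw [hsφ, hsφ]; exact hs))
  · intro G hG
    rw [Finset.card_image_of_injective _ hinj]
    exact hF.2 G hG
  · rintro ⟨P, σ, π, hP⟩
    have h1 : (1 : Perm (Fin n)) ∈ (F.image φ : Finset _) :=
      Finset.mem_image.2 ⟨a, ha, by simp [φ, has]⟩
    have h2 : τ ∈ (F.image φ : Finset _) :=
      Finset.mem_image.2 ⟨b, hb, by simp [φ, hbs]⟩
    rw [← Finset.mem_coe, hP] at h1 h2
    obtain ⟨p, hp, hp1⟩ := h1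
    obtain ⟨q, hq, hq1⟩ := h2
    simp only at hp1 hq1
    have hτ : τ = σ * (q * p⁻¹) * σ⁻¹ := by
      have : τ = τ * (σ * p * π)⁻¹ := by rw [hp1]; simp
      rw [this, ← hq1]; group
    have hmem : q * p⁻¹ ∈ (P : Subgroup (Perm (Fin n))) :=
      Subgroup.mul_mem _ hq (Subgroup.inv_mem _ hp)
    obtain ⟨k, hk⟩ := P.isPGroup' ⟨_, hmem⟩
    have hk' : (q * p⁻¹) ^ (2 ^ k) = 1 := by
      have := congrArg Subtype.val hk
      simpa using this
    have hτk : τ ^ (2 ^ k) = 1 := by
      rw [hτ, conj_pow, hk']; simp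
    have d1 := orderOf_dvd_of_pow_eq_one hτk
    have d2 := orderOf_dvd_of_pow_eq_one hτ6
    have hc : Nat.Coprime (orderOf τ) 3 :=
      Nat.Coprime.coprime_dvd_left d1 (Nat.Coprime.pow_left k (by norm_num))
    have d3 : orderOf τ ∣ 2 := hc.dvd_of_dvd_mul_right (by simpa using d2)
    exact hτ2 (orderOf_dvd_iff_pow_eq_one.1 d3)

end Pool.Agent.Results.MP_acd7ab_co.Q1
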